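import Pool.Agent.W106.CW.Stm

/-!
# Project CW: bounds and the covering inequality
-/

set_option autoImplicit false
open Classical

namespace Pool.Agent.W315.CW

open Pool.Agent.W106.CW

theorem self_mem_cn {V : Type} [Fintype V] (G : SimpleGraph V) (v : V) : v ∈ cn G v := by
  simp [cn]

theorem empty_mem_ind {V : Type} [Fintype V] (G : SimpleGraph V) : (∅ : Finset V) ∈ ind G := by
  simp [ind, SimpleGraph.IsIndepSet]

theorem single_mem_ind {V : Type} [Fintype V] (G : SimpleGraph V) (v : V) :
    ({v} : Finset V) ∈ ind G := by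
  simp [ind, SimpleGraph.IsIndepSet]

theorem wt_pos {V : Type} (x : V → ℝ) (hx : ∀ v, 0 < x v) (I : Finset V) : 0 < wt x I :=
  Finset.prod_pos (fun v _ => hx v)

theorem Z_pos {V : Type} [Fintype V] (G : SimpleGraph V) (x : V → ℝ) (hx : ∀ v, 0 < x v) :
    0 < Z G x :=
  Finset.sum_pos (fun I _ => wt_pos x hx I) ⟨∅, empty_mem_ind G⟩

theorem mem_free {V : Type} [Fintype V] (G : SimpleGraph V) (I : Finset V) (v : V) :
    v ∈ free G I ↔ ∀ w ∈ I, w ∉ cn G v := by
  simp [free]

theorem swap_one (hs : Swap) {V : Type} [Fintype V] (G : SimpleGraph V) (x : V → ℝ) (w0 : V) :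
    x w0 * ex G x (fun I => if w0 ∈ free G I then 1 else 0) =
      ∑ I ∈ ind G, wt x I * (if w0 ∈ I then 1 else 0) := by
  have h := hs V G x (fun v _ => if v = w0 then 1 else 0)
  have e1 : ∀ I : Finset V, ∑ v ∈ I, wt x I * (if v = w0 then (1 : ℝ) else 0) =
      wt x I * (if w0 ∈ I then 1 else 0) := by
    intro I
    rw [← Finset.mul_sum, Finset.sum_ite_eq']
  have e2 : ∀ I : Finset V, ∑ v ∈ free G I, wt x I * (x v * (if v = w0 then (1 : ℝ) else 0)) =
      x w0 * (wt x I * (if w0 ∈ free G I then 1 else 0)) := by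
    intro I
    rw [← Finset.mul_sum]
    have : ∀ v ∈ free G I, x v * (if v = w0 then (1 : ℝ) else 0) = if v = w0 then x w0 else 0 := by
      intro v _
      split_ifs with hv
      · rw [hv, mul_one]
      · rw [mul_zero]
    rw [Finset.sum_congr rfl this, Finset.sum_ite_eq']
    split_ifs <;> ring
  simp only [e1, e2] at h
  rw [h, ex, Finset.mul_sum]

theorem cover (hs : Swap) : Cover := by
  intro V _ G x hx v
  have hZ := Z_pos G x hx
  refine ⟨?_, ?_, ?_⟩
  · unfold uu av
    apply div_pos _ hZ
    unfold ex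
    apply Finset.sum_pos'
    · intro I _
      apply mul_nonneg (wt_pos x hx I).le
      show (0 : ℝ) ≤ if v ∈ free G I then 1 else 0
      split_ifs <;> norm_num
    · refine ⟨∅, empty_mem_ind G, ?_⟩
      show 0 < wt x ∅ * (if v ∈ free G ∅ then 1 else 0)
      rw [if_pos ((mem_free G ∅ v).2 (by simp)), mul_one]
      exact wt_pos x hx ∅
  · unfold uu av
    rw [div_lt_one hZ]
    unfold ex Z
    apply Finset.sum_lt_sum
    · intro I _
      show wt x I * (if v ∈ free G I then 1 else 0) ≤ wt x I
      split_ifs
      · rw [mul_one]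
      · rw [mul_zero]
        exact (wt_pos x hx I).le
    · refine ⟨{v}, single_mem_ind G v, ?_⟩
      show wt x {v} * (if v ∈ free G {v} then 1 else 0) < wt x {v}
      rw [if_neg, mul_zero]
      · exact wt_pos x hx {v}
      · rw [mem_free]
        intro h
        exact h v (Finset.mem_singleton_self v) (self_mem_cn G v)
  · have key : Z G x ≤ ex G x (fun I => if v ∈ free G I then 1 else 0) +
        ∑ w ∈ cn G v, x w * ex G x (fun I => if w ∈ free G I then 1 else 0) := by
      simp_rw [swap_one hs G x]
      rw [Finset.sum_comm]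
      unfold ex Z
      rw [← Finset.sum_add_distrib]
      apply Finset.sum_le_sum
      intro I _
      rw [← Finset.mul_sum, ← mul_add]
      have hw := wt_pos x hx I
      have h1 : (1 : ℝ) ≤ (if v ∈ free G I then 1 else 0) +
          ∑ i ∈ cn G v, (if i ∈ I then (1 : ℝ) else 0) := by
        have hnn : (0 : ℝ) ≤ ∑ i ∈ cn G v, (if i ∈ I then (1 : ℝ) else 0) :=
          Finset.sum_nonneg (fun i _ => by split_ifs <;> norm_num)
        by_cases hv : v ∈ free G I
        · rw [if_pos hv]
          linarith
        · rw [if_neg hv, zero_add]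
          rw [mem_free] at hv
          push Not at hv
          obtain ⟨w, hwI, hwc⟩ := hv
          calc (1 : ℝ) = (if w ∈ I then (1 : ℝ) else 0) := by rw [if_pos hwI]
            _ ≤ _ := Finset.single_le_sum (f := fun i => if i ∈ I then (1 : ℝ) else 0)
                (fun i _ => by split_ifs <;> norm_num) hwc
      nlinarith
    have e1 : uu G x v + ∑ w ∈ cn G v, x w * uu G x w =
        (ex G x (fun I => if v ∈ free G I then 1 else 0) +
          ∑ w ∈ cn G v, x w * ex G x (fun I => if w ∈ free G I then 1 else 0)) / Z G x := by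
      unfold uu av
      rw [add_div, Finset.sum_div]
      congr 1
      apply Finset.sum_congr rfl
      intro w _
      rw [mul_div_assoc]
    rw [e1, le_div_iff₀ hZ, one_mul]
    exact key

end Pool.Agent.W315.CW
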